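import Pool.Agent.Helper72.LSr.S6d

/-!
# Section 6: LR-M6 (`ml_step1`)
-/

namespace Pool.Agent.Helper71.LSr

open Finset
open scoped Classical
open Pool.Agent.Helper72.LSr

variable {V : Type} {j : ℕ} {G : SimpleGraph V} {S : Finset V} {k A B : ℕ} {w : V}


theorem m6_alg {k D Y M Z l g Q P κ r a c cx : ℤ}
    (hk : 1 ≤ k) (hD : 1 ≤ D) (hl : 1 ≤ l) (hP : 0 ≤ P) (hκ : 0 ≤ κ)
    (hQ : 1 + l * r ≤ Q)
    (hEB : k * D * l * g ≤ k * l * (D - M) * Y * D + (2 * k + 3) * l * Y * Z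
      - (3 * k + 3) * D * (Q + P + κ))
    (hc : c ≤ g)
    (ha : D * (a + Q + P + κ) ≤ l * Y * Z)
    (hedge : (D - 1 - c) * l - cx - 4 * κ ≤ P)
    (hlt : cx < a)
    (hF : k * (D - M) * Y * D + 3 * (k + 1) * Y * Z - (4 * k + 3) * r * D ≤ k * (D - 1) * D) :
    False := by
  have hkD : 0 < k * D := by positivity
  have e1 : k * D * ((D - 1 - c) * l - cx - 4 * κ) ≤ k * D * P :=
    mul_le_mul_of_nonneg_left hedge hkD.le
  have e2 : k * D * l * c ≤ k * D * l * g := by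
    apply mul_le_mul_of_nonneg_left hc
    positivity
  have e3 : k * (D * (a + Q + P + κ)) ≤ k * (l * Y * Z) :=
    mul_le_mul_of_nonneg_left ha (by linarith)
  have e4 : k * D * cx ≤ k * D * a := mul_le_mul_of_nonneg_left hlt.le hkD.le
  have e5 : (4 * k + 3) * D * (1 + l * r) ≤ (4 * k + 3) * D * Q :=
    mul_le_mul_of_nonneg_left hQ (by positivity)
  have e6 : l * (k * (D - M) * Y * D + 3 * (k + 1) * Y * Z - (4 * k + 3) * r * D)
      ≤ l * (k * (D - 1) * D) := mul_le_mul_of_nonneg_left hF (by linarith)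
  have e7 : 0 ≤ (3 * k + 3) * D * P := by positivity
  have e8 : 0 ≤ 3 * D * κ := by positivity
  have e9 : 0 < (4 * k + 3) * D := by positivity
  nlinarith [e1, e2, e3, e4, e5, e6, e7, e8, e9]

theorem m6_N {k D Y M Z l g Q P κ r N : ℤ}
    (hk : 1 ≤ k) (hD : 1 ≤ D) (hl : 1 ≤ l) (hP : 0 ≤ P) (hκ : 0 ≤ κ)
    (hQ : 1 + l * r ≤ Q)
    (hN : N = k * (D - M) * Y * D + (2 * k + 3) * Y * Z - (3 * k + 3) * r * D)
    (hEB : k * D * l * g ≤ k * l * (D - M) * Y * D + (2 * k + 3) * l * Y * Z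
      - (3 * k + 3) * D * (Q + P + κ)) : k * D * g < N := by
  have e5 : (3 * k + 3) * D * (1 + l * r) ≤ (3 * k + 3) * D * Q :=
    mul_le_mul_of_nonneg_left hQ (by positivity)
  have e7 : 0 ≤ (3 * k + 3) * D * P := by positivity
  have e8 : 0 ≤ (3 * k + 3) * D * κ := by positivity
  have e9 : 0 < (3 * k + 3) * D := by positivity
  have e1 : l * (k * D * g) < l * N := by
    rw [hN]
    nlinarith [e5, e7, e8, e9, hEB]
  exact lt_of_mul_lt_mul_left e1 (by linarith)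

theorem m6_c4 {k D Y g c N : ℤ}
    (hk : 1 ≤ k) (hD : 1 ≤ D) (e2 : k * D * g < N) (hc : c ≤ g)
    (e4 : k * D * (k + 1 - D) + N ≤ k * D * (4 * (D - Y) + 1)) :
    (k + 1 - D) + c ≤ 4 * (D - Y) := by
  have hkD : 0 < k * D := by positivity
  have e6 : k * D * ((k + 1 - D) + g) < k * D * (4 * (D - Y) + 1) := by nlinarith
  have e10 : (k + 1 - D) + g < 4 * (D - Y) + 1 := lt_of_mul_lt_mul_left e6 hkD.le
  linarith

theorem ml_step1 (h : ML V j G S k A B w) (hm : 1 ≤ (K G (NH G S w) 2)) {y y' x : V} (hy : y ∈ NH G S w)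
    (hy' : y' ∈ NH G S w) (hadj : G.Adj y y')
    (hpos : 0 < aa k A B j G S w (Qs G S w y ∪ Qs G S w y')) (hx : x ∈ nb G S w) :
    aa k A B j G S w (Qs G S w y ∪ Qs G S w y')
      ≤ es k (A + 1) B (j + 2) - K G (nb G S w ∩ nb G S x) (j + 1) := by
  by_contra hcon
  push Not at hcon
  have hsub : ¬ (Qs G S w y ∪ Qs G S w y' ⊆ nb G S w \ nb G S x) := by
    intro hs
    have h1 := aa_mono (G := G) (S := S) (w := w) k A B j hs
    rw [aa_Z] at h1
    linarith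
  rw [Finset.not_subset] at hsub
  obtain ⟨x', hx'Q, hx'n⟩ := hsub
  have hx'w : x' ∈ nb G S w := by
    rw [mem_union] at hx'Q
    rw [mem_nb G]
    rcases hx'Q with h1 | h1 <;>
    · rw [Qs, mem_filter] at h1
      exact ⟨h1.1, h1.2.1⟩
  have hxx' : G.Adj x x' := by
    rw [mem_sdiff] at hx'n
    push Not at hx'n
    exact ((mem_nb G).1 (hx'n hx'w)).2
  have hg : (cv k (A + 1) B G S) w x' ≤ ∑ y ∈ NH G S w, (sq k (A + 1) B G S) w (Qs G S w y) := by
    rw [mem_union] at hx'Q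
    rcases hx'Q with h1 | h1
    · exact ml_c_le h hy h1
    · exact ml_c_le h hy' h1
  have hc0 : 0 ≤ (cv k (A + 1) B G S) w x' := h.hc w h.hw x' ((mem_nb G).1 hx'w).1 ((mem_nb G).1 hx'w).2
  obtain ⟨hP, hκ⟩ := ml_L h
  obtain ⟨hmain, hl, hZ⟩ := ml_main h
  have hN := ml_num h hm
  have hk : (1 : ℤ) ≤ k := by exact_mod_cast h.hk
  have hD := h.hD w h.hw
  have hEB := ml_EB h hm
  have hQ := h.hQ
  have hN0 := m6_N (N := k * ((Dv k (A + 1) B G S) w - (MS k (A + 1) B S)) * (Yv k (A + 1) B G S) w * (Dv k (A + 1) B G S) w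
      + (2 * k + 3) * (Yv k (A + 1) B G S) w * (Dv k (A + 1) B G S w - Yv k (A + 1) B G S w - rS k (A + 1) B G S - K G (NH G S w) 2) - (3 * k + 3) * (max (-(rS k (A + 1) B G S)) 0) * (Dv k (A + 1) B G S) w) hk hD hl hP hκ hQ rfl hEB
  have hg0 : 0 ≤ k * (Dv k (A + 1) B G S) w * ∑ y ∈ NH G S w, (sq k (A + 1) B G S) w (Qs G S w y) :=
    mul_nonneg (by positivity) (le_trans hc0 hg)
  have hX : -1 ≤ (Dv k (A + 1) B G S) w - (MS k (A + 1) B S) := hN.xm1 (lt_of_le_of_lt hg0 hN0)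
  have hc4 : ((k : ℤ) + 1 - (Dv k (A + 1) B G S) w) + (cv k (A + 1) B G S) w x' ≤ 4 * ((Dv k (A + 1) B G S) w - (Yv k (A + 1) B G S) w) :=
    m6_c4 hk hD hN0 hg (hN.nc4 hX)
  have hedge := ml_edge h hx hx'w hxx' 4 (by push_cast; exact hc4)
  push_cast at hedge
  exact m6_alg hk hD hl hP hκ hQ hEB hg (ml_a h hy hy' hadj) hedge hcon (hN.fF hX)

end Pool.Agent.Helper71.LSr
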